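import Pool.Agent.MP_018e62_nt.Params
import Pool.Agent.MP_018e62_nt.Divisors

/-!
Every positive integer is the number of connected components of the closure of the range of some
complex divisor function.
-/

set_option autoImplicit false

namespace Pool.Agent.Results.MP_018e62_nt.EveryCount

/-- The complex divisor function `σ_c(n) = ∑ d ∣ n, d ^ c`. -/
noncomputable def sigma (c : ℂ) (n : ℕ) : ℂ := ∑ d ∈ n.divisors, (d : ℂ) ^ c

/-- The range `σ_c(ℕ)` over the positive integers. -/
def range (c : ℂ) : Set ℂ := {z : ℂ | ∃ n : ℕ, 1 ≤ n ∧ z = sigma c n}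

/-- The set `D_m` of all complex `c` such that the closure of `σ_c(ℕ)` has exactly `m` connected
components (for `m ≥ 1`, `Nat.card = m` says that there are exactly `m` of them). -/
def D (m : ℕ) : Set ℂ := {c : ℂ | Nat.card (ConnectedComponents ↥(closure (range c))) = m}

/-- `D_m` is nonempty for every positive integer `m`. -/
theorem result : ∀ m : ℕ, 1 ≤ m → (D m).Nonempty := by
  intro m hm
  obtain ⟨r, t, N, Y, Y', ε, h, hx⟩ := Pool.Agent.MP_018e62_nt.exists_setup hm
  refine ⟨-(r : ℂ) + t * Complex.I, ?_⟩
  have h1 := h.count hm rfl hx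
  rw [← Pool.Agent.MP_018e62_nt.range_sg t h.good.hr.le] at h1
  exact h1

end Pool.Agent.Results.MP_018e62_nt.EveryCount
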